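import Mathlib

set_option autoImplicit false

namespace Pool.Agent.L0h62.RF

open Finset

theorem bin_step (m j : ℕ) (y : ℝ) :
    ((m.choose (j + 1) : ℕ) : ℝ) * y ^ (j + 1) * (j + 1) =
      ((m.choose j : ℕ) : ℝ) * y ^ j * (((m - j : ℕ) : ℝ) * y) := by
  have h := Nat.choose_succ_right_eq m j
  have h' : ((m.choose (j + 1) : ℕ) : ℝ) * ((j : ℝ) + 1) =
      ((m.choose j : ℕ) : ℝ) * ((m - j : ℕ) : ℝ) := by exact_mod_cast h
  rw [pow_succ]
  linear_combination (y ^ j * y) * h'

theorem bin_core (m e : ℕ) (he : 1 ≤ e) (hm : 2 * e ≤ m) :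
    (1 + (e : ℝ) / ((m : ℝ) - e)) ^ m ≤
      (m + 1) * (m.choose e : ℝ) * ((e : ℝ) / ((m : ℝ) - e)) ^ e := by
  set y : ℝ := (e : ℝ) / ((m : ℝ) - e) with hy
  have hme : (0 : ℝ) < (m : ℝ) - e := by
    have : (2 : ℝ) * e ≤ m := by exact_mod_cast hm
    have : (1 : ℝ) ≤ e := by exact_mod_cast he
    linarith
  have he0 : (0 : ℝ) < e := by exact_mod_cast he
  have hy0 : 0 < y := by positivity
  have hyy : y * ((m : ℝ) - e) = e := by rw [hy]; field_simp
  let T : ℕ → ℝ := fun j => ((m.choose j : ℕ) : ℝ) * y ^ j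
  have hT0 : ∀ j, 0 ≤ T j := fun j => by positivity
  have up : ∀ j, j < e → T j ≤ T (j + 1) := by
    intro j hj
    have hst := bin_step m j y
    have hjm : j ≤ m := by omega
    have hc : ((m - j : ℕ) : ℝ) = (m : ℝ) - j := by push_cast [Nat.cast_sub hjm]; ring
    rw [hc] at hst
    have h1 : (j : ℝ) + 1 ≤ e := by exact_mod_cast hj
    have h2 : (j : ℝ) + 1 ≤ ((m : ℝ) - j) * y := by
      have h3 : y * ((m : ℝ) - e) ≤ y * ((m : ℝ) - j) := by
        apply mul_le_mul_of_nonneg_left _ hy0.le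
        linarith
      nlinarith
    have h4 : T j * (j + 1) ≤ T (j + 1) * (j + 1) := by
      show ((m.choose j : ℕ) : ℝ) * y ^ j * (j + 1) ≤ ((m.choose (j + 1) : ℕ) : ℝ) * y ^ (j + 1) * (j + 1)
      rw [hst]
      exact mul_le_mul_of_nonneg_left h2 (hT0 j)
    have h5 : (0 : ℝ) < (j : ℝ) + 1 := by positivity
    exact le_of_mul_le_mul_right h4 h5
  have dn : ∀ j, e ≤ j → T (j + 1) ≤ T j := by
    intro j hj
    rcases Nat.lt_or_ge m (j + 1) with hjm | hjm
    · have : T (j + 1) = 0 := by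
        show ((m.choose (j + 1) : ℕ) : ℝ) * y ^ (j + 1) = 0
        rw [Nat.choose_eq_zero_of_lt hjm]; simp
      rw [this]; exact hT0 j
    have hst := bin_step m j y
    have hjm : j ≤ m := by omega
    have hc : ((m - j : ℕ) : ℝ) = (m : ℝ) - j := by push_cast [Nat.cast_sub hjm]; ring
    rw [hc] at hst
    have h1 : (e : ℝ) ≤ j := by exact_mod_cast hj
    have h2 : ((m : ℝ) - j) * y ≤ (j : ℝ) + 1 := by
      have h3 : y * ((m : ℝ) - j) ≤ y * ((m : ℝ) - e) := by
        apply mul_le_mul_of_nonneg_left _ hy0.le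
        linarith
      nlinarith
    have h4 : T (j + 1) * (j + 1) ≤ T j * (j + 1) := by
      show ((m.choose (j + 1) : ℕ) : ℝ) * y ^ (j + 1) * (j + 1) ≤ ((m.choose j : ℕ) : ℝ) * y ^ j * (j + 1)
      rw [hst]
      exact mul_le_mul_of_nonneg_left h2 (hT0 j)
    have h5 : (0 : ℝ) < (j : ℝ) + 1 := by positivity
    exact le_of_mul_le_mul_right h4 h5
  have up' : ∀ k, k ≤ e → T (e - k) ≤ T e := by
    intro k
    induction k with
    | zero => intro _; simp
    | succ k ih =>
      intro hk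
      have h1 := up (e - (k + 1)) (by omega)
      have h2 : e - (k + 1) + 1 = e - k := by omega
      rw [h2] at h1
      exact h1.trans (ih (by omega))
  have dn' : ∀ k, T (e + k) ≤ T e := by
    intro k
    induction k with
    | zero => simp
    | succ k ih => exact (dn (e + k) (by omega)).trans ih
  have all : ∀ j, T j ≤ T e := by
    intro j
    rcases Nat.le_total j e with h | h
    · have := up' (e - j) (by omega)
      rwa [show e - (e - j) = j by omega] at this
    · have := dn' (j - e)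
      rwa [show e + (j - e) = j by omega] at this
  have hs : (1 + y) ^ m = ∑ j ∈ range (m + 1), T j := by
    rw [add_comm, add_pow]
    refine sum_congr rfl fun j _ => ?_
    show y ^ j * 1 ^ (m - j) * _ = _
    simp only [one_pow, mul_one]
    ring
  rw [hs]
  calc ∑ j ∈ range (m + 1), T j ≤ ∑ _j ∈ range (m + 1), T e := sum_le_sum fun j _ => all j
    _ = (m + 1) * ((m.choose e : ℕ) : ℝ) * y ^ e := by
        rw [sum_const, card_range, nsmul_eq_mul]
        push_cast
        ring

end Pool.Agent.L0h62.RF
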