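import Pool.Agent.L0h98.RF.Def
import Pool.Agent.L0h62.RF.BINcore

set_option autoImplicit false

namespace Pool.Agent.L0h62.RF

open Pool.Agent.L0h98.RF

theorem t_BIN : S_BIN := fun m e he hm => bin_core m e he hm

end Pool.Agent.L0h62.RF
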