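import Pool.Agent.L0h98.RF.Def

set_option autoImplicit false

namespace Pool.Agent.L0h62.RF

open Finset Classical
open Pool.Agent.L0h98.GS (Hf Sim Cg eC GirthGt Bad)
open Pool.Agent.N404.LF (cnt)
open Pool.Agent.L0h98.RF

theorem sum_cnt_hf {V : Type} [Fintype V] {m : ℕ} (a : Hf m → V) : ∑ v, cnt a v = 2 * m := by
  have h : (univ : Finset (Hf m)).card = ∑ v ∈ (univ : Finset V), (univ.filter fun x => a x = v).card :=
    card_eq_sum_card_fiberwise fun x _ => mem_univ _
  have h2 : (univ : Finset (Hf m)).card = 2 * m := by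
    rw [card_univ, Fintype.card_prod, Fintype.card_fin, Fintype.card_bool, mul_comm]
  rw [← h2, h]
  rfl

theorem t_NUM : S_NUM := by
  intro V _ m a h3 s y hy hy1
  set t : ℝ := y ^ ((1 : ℝ) / 3) with ht
  have ht0 : 0 < t := Real.rpow_pos_of_pos hy _
  have htd : ∀ d : ℕ, t ^ d = y ^ ((d : ℝ) / 3) := by
    intro d
    rw [ht, ← Real.rpow_natCast, ← Real.rpow_mul hy.le]
    congr 1
    ring
  have h1 : (((univ.filter fun X : Finset V => sz a X = s).card : ℕ) : ℝ) * t ^ s ≤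
      ∑ X : Finset V, ∏ v ∈ X, t ^ cnt a v := by
    have e1 : (((univ.filter fun X : Finset V => sz a X = s).card : ℕ) : ℝ) * t ^ s =
        ∑ X ∈ univ.filter (fun X : Finset V => sz a X = s), ∏ v ∈ X, t ^ cnt a v := by
      rw [← nsmul_eq_mul, ← sum_const]
      refine sum_congr rfl fun X hX => ?_
      rw [prod_pow_eq_pow_sum]
      have : sz a X = s := (mem_filter.1 hX).2
      rw [← this]
      rfl
    rw [e1]
    exact sum_le_sum_of_subset_of_nonneg (filter_subset _ _) fun X _ _ =>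
      prod_nonneg fun v _ => by positivity
  have h2 : ∑ X : Finset V, ∏ v ∈ X, t ^ cnt a v = ∏ v : V, (1 + t ^ cnt a v) := by
    rw [prod_one_add]
    rw [powerset_univ]
  have h4 : ∏ v : V, (1 + t ^ cnt a v) ≤ ∏ v : V, (1 + y) ^ ((cnt a v : ℝ) / 3) := by
    refine prod_le_prod (fun v _ => by positivity) fun v _ => ?_
    rw [htd]
    have hp : (1 : ℝ) ≤ (cnt a v : ℝ) / 3 := by
      have : (3 : ℝ) ≤ cnt a v := by exact_mod_cast h3 v
      linarith
    have := Real.add_rpow_le_rpow_add (a := 1) (b := y) (by norm_num) hy.le hp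
    rwa [Real.one_rpow] at this
  have h5 : ∏ v : V, (1 + y) ^ ((cnt a v : ℝ) / 3) = (1 + y) ^ ((2 : ℝ) * m / 3) := by
    rw [← Real.rpow_sum_of_pos (by linarith)]
    congr 1
    rw [← sum_div]
    congr 1
    have := sum_cnt_hf a
    exact_mod_cast this
  have h6 : (((univ.filter fun X : Finset V => sz a X = s).card : ℕ) : ℝ) * t ^ s ≤
      (1 + y) ^ ((2 : ℝ) * m / 3) := h1.trans (h2.le.trans (h4.trans h5.le))
  have h7 : y ^ (-(s : ℝ) / 3) * t ^ s = 1 := by
    rw [htd, ← Real.rpow_add hy]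
    have : -(s : ℝ) / 3 + (s : ℝ) / 3 = 0 := by ring
    rw [this, Real.rpow_zero]
  have h8 : 0 < y ^ (-(s : ℝ) / 3) := Real.rpow_pos_of_pos hy _
  calc (((univ.filter fun X : Finset V => sz a X = s).card : ℕ) : ℝ)
      = y ^ (-(s : ℝ) / 3) * ((((univ.filter fun X : Finset V => sz a X = s).card : ℕ) : ℝ) * t ^ s) := by
        linear_combination (-(((univ.filter fun X : Finset V => sz a X = s).card : ℕ) : ℝ)) * h7
    _ ≤ y ^ (-(s : ℝ) / 3) * (1 + y) ^ ((2 : ℝ) * m / 3) := mul_le_mul_of_nonneg_left h6 h8.le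

end Pool.Agent.L0h62.RF
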